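import Mathlib
import Pool.Agent.Helper15.CE.Box2

/-!
MP_4c54b3_gt, a partial (positive) result on Q1: let `Γ` act properly and coboundedly by
isometries on a CAT(0) space, with a sequence of normal subgroups `N_n` of finite index which
eventually avoids every nontrivial element, and let `G` be a finitely generated subgroup of `Γ`
which is closed for the topology of the `N_n` (for instance `G = Γ`).  Then the box space of `G`
for the traces of the `N_n` coarsely embeds into a CAT(0) space.  No Hilbert space embedding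
exists for the box spaces of the groups with property (T) in this class (for example cocompact
lattices in Sp(n,1) and SL(3,Q_p)): these are expanders, and so are many box spaces of thin
subgroups of cocompact arithmetic lattices.

Proof: for a subgroup `N` of large displacement, the quotient `N \ Z`, rescaled by a small factor
`e` and cut off at `π`, satisfies the spherical Stewart inequality for every triangle
(`Quo.lean`); triangles of perimeter less than `2 π` lift to `Z`, the others are elementary.  The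
Euclidean cone over it is a CAT(0) space (`Cone.lean`).  The cones for all scales and all finite
quotients are put together in a square summable product (`Sum.lean`, `Crit.lean`, `Box2.lean`).
-/

universe u v w

namespace Pool.Agent.Results.MP_4c54b3_gt.BoxSpaces

open Filter Pool.Agent.Helper15.CE Pool.Agent.Helper17.TC

theorem result {Γ : Type w} [Group Γ] {Z : Type v} [MetricSpace Z] (hZ : IsCAT0 Z)
    [MulAction Γ Z] (hiso : ∀ g : Γ, Isometry fun z : Z => g • z) (z0 : Z)
    (hproper : ∀ r : ℝ, {g : Γ | dist z0 (g • z0) ≤ r}.Finite)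
    (hcobounded : ∃ r : ℝ, ∀ z : Z, ∃ g : Γ, dist z (g • z0) ≤ r)
    (N : ℕ → Subgroup Γ) [∀ n, (N n).Normal] (hindex : ∀ n, (N n).FiniteIndex)
    (hfilt : ∀ g : Γ, g ≠ 1 → ∀ᶠ n in atTop, g ∉ N n)
    {G : Type u} [Group G] (S : Finset G) (hS : Subgroup.closure (S : Set G) = ⊤)
    (ρ : G →* Γ) (hρ : Function.Injective ρ)
    (hclosed : ∀ γ : Γ, γ ∉ Set.range ρ → ∀ᶠ n in atTop, ∀ g : G, (ρ g)⁻¹ * γ ∉ N n)
    [MetricSpace (Σ n, G ⧸ (N n).comap ρ)]
    (hword : ∀ n (x y : G ⧸ (N n).comap ρ), dist (⟨n, x⟩ : Σ n, G ⧸ (N n).comap ρ) ⟨n, y⟩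
      = wordLen ((QuotientGroup.mk : G → G ⧸ (N n).comap ρ) '' S) (x⁻¹ * y))
    (hfar : ∀ r : ℝ, {p : ℕ × ℕ | p.1 ≠ p.2 ∧ ∃ x y,
      dist (⟨p.1, x⟩ : Σ n, G ⧸ (N n).comap ρ) ⟨p.2, y⟩ ≤ r}.Finite) :
    ∃ (Y : Type v) (_ : MetricSpace Y), IsCAT0 Y ∧
      ∃ (f : (Σ n, G ⧸ (N n).comap ρ) → Y) (rm rp : ℝ → ℝ),
        MonotoneOn rm (Set.Ici 0) ∧ MonotoneOn rp (Set.Ici 0) ∧ Tendsto rm atTop atTop ∧
        ∀ x y, rm (dist x y) ≤ dist (f x) (f y) ∧ dist (f x) (f y) ≤ rp (dist x y) :=
  coarse_of_scales fun k => box_scale2 hiso hZ z0 hproper N hindex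
    (displacement hiso z0 hproper hcobounded N hfilt) S hS ρ hρ hclosed hword hfar k

end Pool.Agent.Results.MP_4c54b3_gt.BoxSpaces
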