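import Mathlib
import Pool.Agent.Helper17.TC.Fin

/-!
MP_4c54b3_gt, a partial (quantitative) result on Q1 and Q2: there is a finitely generated group
all of whose coarse embeddings into CAT(0) spaces have a compression function at most
`exp (18 * sqrt (log t))` (times the Lipschitz constant), hence smaller than every power of `t`.

Proof: the cube inequality of Eskenazis, Mendel and Naor for iterated midpoints is applied in
each factor of the rank one sign tensors `χ_1 ⊗ ... ⊗ χ_K`, which are only `2^(nK)` moves of a
lattice of rank `n^K`; see `Level.lean`, `Multi.lean`; the group is in `Grp.lean`.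
-/

universe v

namespace Pool.Agent.Results.MP_4c54b3_gt.CompressionZero

open Pool.Agent.Helper17.TC

theorem result : ∃ (G : Type) (_ : Group G) (S : Finset G),
    Subgroup.closure (S : Set G) = ⊤ ∧
    ∀ (Y : Type v) [MetricSpace Y], IsCAT0 Y →
      ∀ (f : G → Y) (rm rp : ℝ → ℝ),
        MonotoneOn rm (Set.Ici 0) → MonotoneOn rp (Set.Ici 0) →
        (∀ g h : G, rm (wordNorm S (g⁻¹ * h)) ≤ dist (f g) (f h) ∧
          dist (f g) (f h) ≤ rp (wordNorm S (g⁻¹ * h))) →
        ∀ t : ℝ, 2 ≤ t → rm t ≤ rp 1 * Real.exp (18 * Real.sqrt (Real.log t)) :=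
  ⟨GG, inferInstance, SS, closure_SS, fun _ _ h0 f rm rp hm hp hf t ht =>
    final h0 f rm rp hm hp hf t ht⟩

end Pool.Agent.Results.MP_4c54b3_gt.CompressionZero
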