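import Mathlib
import Pool.Agent.Helper15.CE.MvCongr

/-!
MP_4c54b3_gt, a partial (positive) result on Q1: box spaces of universal lattices and of
arithmetic groups in positive characteristic coarsely embed into CAT(0) spaces.  Here `F` is a
finite field, `R = F[x_1, ..., x_d]`, and `G` is a finitely generated subgroup of `SL_N(R)`; the
quotients are the images of `G` in `SL_N(R/I_n)` for a sequence of ideals of finite index which
are deep (they contain no nonzero polynomial of degree at most `m`, for `n` large) and prime (for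
`d = 1` every deep sequence is allowed).  The group `G` has to be closed for the topology of these
ideals: `SL_N(R)` itself is, and so is every subgroup given by polynomial equations, see
`closed_of_equations`; for `d = 1`, by restriction of scalars from the ring of `S`-integers of a
global function field to `F[X]`, this includes the `S`-arithmetic groups.  For `G = SL_N(R)`,
`N ≥ 3`, these box spaces are expanders (property (T)) and do not coarsely embed into Hilbert
space; the group has finite subgroups of arbitrarily large order, hence it does not act properly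
and cocompactly on a CAT(0) space, so that the theorem on box spaces of CAT(0) groups
(`BoxSpaces`) does not apply.

Proof: for a finite dimensional vector space `V` the kernel
`K (Φ, Ψ) = B (Φ, Φ) + B (Ψ, Ψ) - 2 B (Φ, Ψ)`, `B (Φ, Ψ) = ∫ ∫ dim (Φ s ∩ Ψ t) ds dt`, on the set
of decreasing real filtrations of `V` is the square of a CAT(0) metric (a common splitting of two
filtrations reduces Stewart's inequality to the real line, `Filt.lean`, `Filt2.lean`).  An element
`g` of `SL_N(R/I)` goes to the image under `g` of the filtration of `(R/I)^N` by the degree,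
truncated at the depth `m` of the ideal, at scale `m ^ 2 / dim R_{< m}` (`MvFil.lean`).  Small
distance forces, at some level `j < m`, the containment of levels with a shift which does not
depend on the ideal, up to fewer than `dim R_{< j} - dim R_{< j - 1}` dimensions (`Est2.lean`); by
unique factorisation in `R` then `g⁻¹ h` is the class of a matrix of bounded degree (`Rig.lean`,
`MvLow.lean`; `Helper7/CE/MvPart.lean` is written by helper7).
-/

universe u w

open MvPolynomial

namespace Pool.Agent.Results.MP_4c54b3_gt.CongruenceBox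

open Filter Pool.Agent.Helper15.CE Pool.Agent.Helper17.TC

/-- Subgroups defined by polynomial equations are closed. -/
theorem closed_of_equations {F : Type u} [Field F] {d N : ℕ} {G : Type w} [Group G]
    (ρ : G →* Matrix.SpecialLinearGroup (Fin N) (MvPolynomial (Fin d) F))
    (E : Set (MvPolynomial (Fin N × Fin N) (MvPolynomial (Fin d) F)))
    (hE : ∀ A : Matrix.SpecialLinearGroup (Fin N) (MvPolynomial (Fin d) F), A ∈ Set.range ρ ↔
      ∀ P ∈ E, MvPolynomial.eval (fun ij => A.1 ij.1 ij.2) P = 0)
    (I : ℕ → Ideal (MvPolynomial (Fin d) F))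
    (hdeep : ∀ m : ℕ, ∀ᶠ n in atTop, ∀ p ∈ I n, p.totalDegree ≤ m → p = 0)
    (A : Matrix.SpecialLinearGroup (Fin N) (MvPolynomial (Fin d) F)) (hA : A ∉ Set.range ρ) :
    ∀ᶠ n in atTop, ∀ g : G, Matrix.SpecialLinearGroup.map (Ideal.Quotient.mk (I n)) (ρ g)
      ≠ Matrix.SpecialLinearGroup.map (Ideal.Quotient.mk (I n)) A := by
  rw [hE] at hA
  push Not at hA
  obtain ⟨P, hP, hne⟩ := hA
  filter_upwards [hdeep (MvPolynomial.eval (fun ij : Fin N × Fin N => A.1 ij.1 ij.2)
    P).totalDegree] with n hn g hg
  have h1 := (hE (ρ g)).1 ⟨g, rfl⟩ P hP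
  have key : ∀ B : Matrix.SpecialLinearGroup (Fin N) (MvPolynomial (Fin d) F),
      Ideal.Quotient.mk (I n) (MvPolynomial.eval (fun ij : Fin N × Fin N => B.1 ij.1 ij.2) P)
        = MvPolynomial.eval₂ (Ideal.Quotient.mk (I n)) (fun ij : Fin N × Fin N =>
          (Matrix.SpecialLinearGroup.map (Ideal.Quotient.mk (I n)) B).1 ij.1 ij.2) P := by
    intro B
    rw [MvPolynomial.eval, MvPolynomial.coe_eval₂Hom, MvPolynomial.eval₂_comp_left,
      RingHom.comp_id]
    rfl
  have h2 := key (ρ g)
  rw [h1, map_zero, hg, ← key A] at h2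
  exact hne (hn _ (Ideal.Quotient.eq_zero_iff_mem.1 h2.symm) le_rfl)

theorem result {F : Type u} [Field F] [Finite F] {d N : ℕ} {G : Type w} [Group G] (S : Finset G)
    (hS : Subgroup.closure (S : Set G) = ⊤)
    (ρ : G →* Matrix.SpecialLinearGroup (Fin N) (MvPolynomial (Fin d) F))
    (hρ : Function.Injective ρ)
    (I : ℕ → Ideal (MvPolynomial (Fin d) F)) (hindex : ∀ n, Finite (MvPolynomial (Fin d) F ⧸ I n))
    (hdeep : ∀ m : ℕ, ∀ᶠ n in atTop, ∀ p ∈ I n, p.totalDegree ≤ m → p = 0)
    (hprime : d = 1 ∨ ∀ n, (I n).IsPrime)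
    (hclosed : ∀ A : Matrix.SpecialLinearGroup (Fin N) (MvPolynomial (Fin d) F),
      A ∉ Set.range ρ → ∀ᶠ n in atTop, ∀ g : G,
        Matrix.SpecialLinearGroup.map (Ideal.Quotient.mk (I n)) (ρ g)
          ≠ Matrix.SpecialLinearGroup.map (Ideal.Quotient.mk (I n)) A)
    [MetricSpace (Σ n, G ⧸
      ((Matrix.SpecialLinearGroup.map (n := Fin N) (Ideal.Quotient.mk (I n))).comp ρ).ker)]
    (hword : ∀ n (x y : G ⧸
      ((Matrix.SpecialLinearGroup.map (n := Fin N) (Ideal.Quotient.mk (I n))).comp ρ).ker),
      dist (⟨n, x⟩ : Σ n, G ⧸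
        ((Matrix.SpecialLinearGroup.map (n := Fin N) (Ideal.Quotient.mk (I n))).comp ρ).ker)
        ⟨n, y⟩
      = wordLen ((QuotientGroup.mk : G → G ⧸
          ((Matrix.SpecialLinearGroup.map (n := Fin N) (Ideal.Quotient.mk (I n))).comp ρ).ker)
          '' S) (x⁻¹ * y))
    (hfar : ∀ r : ℝ, {p : ℕ × ℕ | p.1 ≠ p.2 ∧ ∃ x y,
      dist (⟨p.1, x⟩ : Σ n, G ⧸
        ((Matrix.SpecialLinearGroup.map (n := Fin N) (Ideal.Quotient.mk (I n))).comp ρ).ker)
        ⟨p.2, y⟩ ≤ r}.Finite) :
    ∃ (Y : Type u) (_ : MetricSpace Y), IsCAT0 Y ∧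
      ∃ (φ : (Σ n, G ⧸
        ((Matrix.SpecialLinearGroup.map (n := Fin N) (Ideal.Quotient.mk (I n))).comp ρ).ker) → Y)
        (rm rp : ℝ → ℝ),
        MonotoneOn rm (Set.Ici 0) ∧ MonotoneOn rp (Set.Ici 0) ∧ Tendsto rm atTop atTop ∧
        ∀ x y, rm (dist x y) ≤ dist (φ x) (φ y) ∧ dist (φ x) (φ y) ≤ rp (dist x y) :=
  mv_congr_coarse S hS ρ hρ I hindex hdeep hprime hclosed hword hfar

end Pool.Agent.Results.MP_4c54b3_gt.CongruenceBox
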