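import Mathlib
import Pool.Agent.Helper48.FC.Main

/-!
MP_4c54b3_gt, a partial (positive) result on Q1 and Q2: every metric space with a fibred coarse
embedding into Hilbert space (Chen, Wang, Yu) coarsely embeds into a CAT(0) space.  No bounded
geometry is needed.  The spaces with a fibred coarse embedding into Hilbert space include the box
spaces of the residually finite a-T-menable groups (this is not formalised here), many of which are
expanders and do not coarsely embed into Hilbert space.

Proof: at each scale the fibred coarse embedding gives flat transition data between the fibres over
nearby points.  The section is thickened to neighbourhoods of radius `ρ`, with the conformally flat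
metric `|dz|²/(c² P)`, where `P` is a regularised squared distance to the complement of the
neighbourhood and `c = 10⁻⁸`.  Every ball of radius 20 of this metric lies in a chart, a Hilbert
space with a weight `exp (2 φ)` with small first and second derivatives, where the spherical
Stewart inequality holds for all triangles of perimeter less than `2 π` (second variation of the
length, after a reduction to finite dimension and smooth weights).  So the distances cut off at `π`
satisfy the spherical Stewart inequality for all triangles, and the Euclidean cone over the space
is a CAT(0) space.  The cones for all scales are put together in a square summable product.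
-/

universe u v

namespace Pool.Agent.Results.MP_4c54b3_gt.FibredEmbedding

open Filter Pool.Agent.Helper17.TC Pool.Agent.Helper48.FC

theorem result {X : Type u} [MetricSpace X] (h : FibredCE.{u, v} X) :
    ∃ (Y : Type (max u v)) (_ : MetricSpace Y), IsCAT0 Y ∧
      ∃ (f : X → Y) (rm rp : ℝ → ℝ),
        MonotoneOn rm (Set.Ici 0) ∧ MonotoneOn rp (Set.Ici 0) ∧ Tendsto rm atTop atTop ∧
        ∀ x y, rm (dist x y) ≤ dist (f x) (f y) ∧ dist (f x) (f y) ≤ rp (dist x y) :=
  coarse_of_fibred h

end Pool.Agent.Results.MP_4c54b3_gt.FibredEmbedding
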